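import Mathlib

/-!
Directions without open cups: if `P` is a finite set of points of the plane, no three on a line, with
at most `3 k - 7` points, then in some generic direction no `k` points of `P` form an open cup.
-/

set_option autoImplicit false
open scoped Classical

namespace Pool.Agent.H2.HM

/-- The cross product. -/
def br (v w : ℝ × ℝ) : ℝ := v.1 * w.2 - v.2 * w.1

/-- The point `p` is strictly above the segment from `a` (left) to `c` (right) in the direction `u`. -/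
def Ab (u a p c : ℝ × ℝ) : Prop := br a u < br p u ∧ br p u < br c u ∧ 0 < br (c - a) (p - a)

/-- No three points of `P` are collinear. -/
def GP (P : Finset (ℝ × ℝ)) : Prop :=
  ∀ a ∈ P, ∀ b ∈ P, ∀ c ∈ P, a ≠ b → a ≠ c → b ≠ c → br (b - a) (c - a) ≠ 0

/-- The direction `u` is not parallel to a line through two points of `P`. -/
def Gen (P : Finset (ℝ × ℝ)) (u : ℝ × ℝ) : Prop := ∀ p ∈ P, ∀ q ∈ P, p ≠ q → br (p - q) u ≠ 0

/-- No point of `P` is above a segment between points of `K`. -/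
def Opn (P K : Finset (ℝ × ℝ)) (u : ℝ × ℝ) : Prop := ∀ a ∈ K, ∀ c ∈ K, ∀ p ∈ P, ¬ Ab u a p c

/-- The coordinate perpendicular to `(1, m)`. -/
def X (m : ℝ) (p : ℝ × ℝ) : ℝ := m * p.1 - p.2

lemma br_pos (m : ℝ) (p : ℝ × ℝ) : br p (1, m) = X m p := by
  unfold br X; ring

lemma br_neg (m : ℝ) (p : ℝ × ℝ) : br p (-1, -m) = - X m p := by
  unfold br X; ring

lemma br_form (m : ℝ) (v w : ℝ × ℝ) : br v w = X m v * w.1 - v.1 * X m w := by
  unfold br X; ring

lemma X_sub (m : ℝ) (p q : ℝ × ℝ) : X m (p - q) = X m p - X m q := by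
  unfold X; simp only [Prod.fst_sub, Prod.snd_sub]; ring

lemma X_add (m g : ℝ) (p : ℝ × ℝ) : X m p = X g p + (m - g) * p.1 := by
  unfold X; ring

lemma gen_pos {P : Finset (ℝ × ℝ)} {m : ℝ} (h : ∀ p ∈ P, ∀ q ∈ P, p ≠ q → X m p ≠ X m q) :
    Gen P (1, m) := by
  intro p hp q hq hne h0
  rw [br_pos, X_sub] at h0
  exact h p hp q hq hne (by linarith)

lemma gen_neg {P : Finset (ℝ × ℝ)} {m : ℝ} (h : ∀ p ∈ P, ∀ q ∈ P, p ≠ q → X m p ≠ X m q) :
    Gen P (-1, -m) := by
  intro p hp q hq hne h0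
  rw [br_neg, X_sub] at h0
  exact h p hp q hq hne (by linarith)

/-- Triples in cups of opposite directions. -/
lemma triple {P K K' : Finset (ℝ × ℝ)} (gp : GP P) (hK : K ⊆ P) {m m' : ℝ}
    (h1 : Opn P K (1, m)) (h2 : Opn P K' (-1, -m')) {a b c : ℝ × ℝ}
    (ha : a ∈ K) (hb : b ∈ K) (hc : c ∈ K) (ha' : a ∈ K') (hc' : c ∈ K')
    (o1 : X m a < X m b) (o2 : X m b < X m c) (o3 : X m' a < X m' b) (o4 : X m' b < X m' c) :
    False := by
  have hab : a ≠ b := by rintro rfl; exact lt_irrefl _ o1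
  have hbc : b ≠ c := by rintro rfl; exact lt_irrefl _ o2
  have hac : a ≠ c := by rintro rfl; exact lt_irrefl _ (o1.trans o2)
  have h0 : br (c - a) (b - a) ≠ 0 := gp a (hK ha) c (hK hc) b (hK hb) hac hab hbc.symm
  rcases lt_or_gt_of_ne h0 with h | h
  · refine h2 c hc' a ha' b (hK hb) ⟨?_, ?_, ?_⟩
    · rw [br_neg, br_neg]; linarith
    · rw [br_neg, br_neg]; linarith
    · have e : br (a - c) (b - c) = - br (c - a) (b - a) := by
        unfold br; simp only [Prod.fst_sub, Prod.snd_sub]; ring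
      rw [e]; linarith
  · refine h1 a ha c hc b (hK hb) ⟨?_, ?_, h⟩
    · rw [br_pos, br_pos]; exact o1
    · rw [br_pos, br_pos]; exact o2

/-- Three points with different values of an injective-on-them function can be sorted. -/
lemma sort3 {α : Type} (f : α → ℝ) {a b c : α} (h1 : f a ≠ f b) (h2 : f a ≠ f c) (h3 : f b ≠ f c)
    (Q : α → α → α → Prop) (hQ : ∀ x y z, (x = a ∨ x = b ∨ x = c) → (y = a ∨ y = b ∨ y = c) →
      (z = a ∨ z = b ∨ z = c) → f x < f y → f y < f z → Q x y z) : ∃ x y z, Q x y z := by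
  rcases lt_or_gt_of_ne h1 with h1 | h1 <;> rcases lt_or_gt_of_ne h2 with h2 | h2 <;>
    rcases lt_or_gt_of_ne h3 with h3 | h3
  · exact ⟨a, b, c, hQ _ _ _ (by simp) (by simp) (by simp) h1 h3⟩
  · exact ⟨a, c, b, hQ _ _ _ (by simp) (by simp) (by simp) h2 h3⟩
  · exact absurd (h1.trans h3) (by linarith)
  · exact ⟨c, a, b, hQ _ _ _ (by simp) (by simp) (by simp) h2 h1⟩
  · exact ⟨b, a, c, hQ _ _ _ (by simp) (by simp) (by simp) h1 h2⟩
  · exact absurd (h2.trans h3) (by linarith)
  · exact ⟨b, c, a, hQ _ _ _ (by simp) (by simp) (by simp) h3 h2⟩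
  · exact ⟨c, b, a, hQ _ _ _ (by simp) (by simp) (by simp) h3 h1⟩

/-- Common sets of cups of nearly opposite directions on which the limit coordinate is injective have at
most two points. -/
lemma small {P K K' : Finset (ℝ × ℝ)} (gp : GP P) (hK : K ⊆ P) {m m' g : ℝ}
    (h1 : Opn P K (1, m)) (h2 : Opn P K' (-1, -m'))
    (l1 : ∀ p ∈ P, ∀ q ∈ P, X g p < X g q → X m p < X m q)
    (l2 : ∀ p ∈ P, ∀ q ∈ P, X g p < X g q → X m' p < X m' q) {W : Finset (ℝ × ℝ)}
    (hW : W ⊆ K) (hW' : W ⊆ K') (inj : ∀ p ∈ W, ∀ q ∈ W, p ≠ q → X g p ≠ X g q) :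
    W.card ≤ 2 := by
  by_contra hcon
  obtain ⟨a, ha, b, hb, c, hc, hab, hac, hbc⟩ := Finset.two_lt_card.1 (not_le.1 hcon)
  obtain ⟨x, y, z, hQ⟩ := sort3 (X g) (inj a ha b hb hab) (inj a ha c hc hac) (inj b hb c hc hbc)
    (fun _ _ _ => False) (fun x y z hx hy hz o1 o2 => by
      have hx' : x ∈ W := by rcases hx with rfl | rfl | rfl <;> assumption
      have hy' : y ∈ W := by rcases hy with rfl | rfl | rfl <;> assumption
      have hz' : z ∈ W := by rcases hz with rfl | rfl | rfl <;> assumption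
      have px := hK (hW hx')
      have py := hK (hW hy')
      have pz := hK (hW hz')
      exact triple gp hK h1 h2 (hW hx') (hW hy') (hW hz') (hW' hx') (hW' hz')
        (l1 x px y py o1) (l1 y py z pz o2) (l2 x px y py o1) (l2 y py z pz o2))
  exact hQ

/-- An extreme point is not strictly inside the range of an open cup. -/
lemma side {P K : Finset (ℝ × ℝ)} (gp : GP P) (hK : K ⊆ P) {m : ℝ} (h1 : Opn P K (1, m))
    {A : ℝ × ℝ} (hA : A ∈ P) (hmax : ∀ p ∈ P, p.1 ≤ A.1) :
    (∀ a ∈ K, X m a ≤ X m A) ∨ ∀ a ∈ K, X m A ≤ X m a := by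
  by_contra hcon
  push Not at hcon
  obtain ⟨⟨c, hc, hc'⟩, ⟨a, ha, ha'⟩⟩ := hcon
  have hac : a ≠ c := by rintro rfl; linarith
  have haA : a ≠ A := by rintro rfl; linarith
  have hcA : c ≠ A := by rintro rfl; linarith
  have h0 : br (c - a) (A - a) ≠ 0 := gp a (hK ha) c (hK hc) A hA hac haA hcA
  have e : br (c - a) (A - a) = (X m A - X m a) * (A.1 - c.1) + (X m c - X m A) * (A.1 - a.1) := by
    rw [br_form m, X_sub, X_sub]
    simp only [Prod.fst_sub]
    ring
  have h2 : 0 ≤ br (c - a) (A - a) := by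
    rw [e]
    have i1 := hmax a (hK ha)
    have i2 := hmax c (hK hc)
    have i3 : 0 ≤ (X m A - X m a) * (A.1 - c.1) := mul_nonneg (by linarith) (by linarith)
    have i4 : 0 ≤ (X m c - X m A) * (A.1 - a.1) := mul_nonneg (by linarith) (by linarith)
    linarith
  refine h1 a ha c hc A hA ⟨?_, ?_, lt_of_le_of_ne h2 h0.symm⟩
  · rw [br_pos, br_pos]; exact ha'
  · rw [br_pos, br_pos]; exact hc'

/-- Points on a line. -/
lemma fiber {P : Finset (ℝ × ℝ)} (gp : GP P) (g : ℝ) {a b c : ℝ × ℝ} (ha : a ∈ P) (hb : b ∈ P)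
    (hc : c ∈ P) (hab : a ≠ b) (hac : a ≠ c) (hbc : b ≠ c) (h1 : X g a = X g b) (h2 : X g a = X g c) :
    False := by
  apply gp a ha b hb c hc hab hac hbc
  rw [br_form g, X_sub, X_sub, h1]
  have : X g c = X g b := by rw [← h2, h1]
  rw [this]
  ring

/-- In a cup for a slope above `g` a pair parallel to `(1, g)` is at the right end. -/
lemma last {P K : Finset (ℝ × ℝ)} (gp : GP P) (hK : K ⊆ P) {m g : ℝ} (hm : g < m)
    (h1 : Opn P K (1, m)) (l1 : ∀ p ∈ P, ∀ q ∈ P, X g p < X g q → X m p < X m q)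
    {b b' c : ℝ × ℝ} (hb : b ∈ K) (hb' : b' ∈ K) (hc : c ∈ K) (hne : b ≠ b') (he : X g b = X g b')
    (hcb : c ≠ b) (hcb' : c ≠ b') : X g c < X g b := by
  have h0 : X g c ≠ X g b := fun h =>
    fiber gp g (hK hb) (hK hb') (hK hc) hne hcb.symm hcb'.symm he h.symm
  refine lt_of_le_of_ne ?_ h0
  by_contra hcon
  have hlt : X g b < X g c := not_le.1 hcon
  -- order the pair
  have key : ∀ b b' : ℝ × ℝ, b ∈ K → b' ∈ K → X g b = X g b' → X g b < X g c → b.1 < b'.1 → False := by
    intro b b' hb hb' he hlt hfst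
    refine h1 b hb c hc b' (hK hb') ⟨?_, ?_, ?_⟩
    · rw [br_pos, br_pos, X_add m g b, X_add m g b', he]
      have : (m - g) * b.1 < (m - g) * b'.1 := mul_lt_mul_of_pos_left hfst (by linarith)
      linarith
    · rw [br_pos, br_pos]
      exact l1 b' (hK hb') c (hK hc) (by rw [← he]; exact hlt)
    · rw [br_form g, X_sub, X_sub, he]
      simp only [Prod.fst_sub]
      have : 0 < (X g c - X g b') * (b'.1 - b.1) :=
        mul_pos (by rw [← he]; linarith) (by linarith)
      nlinarith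
  have hfst : b.1 ≠ b'.1 := by
    intro h
    apply hne
    have h2 : b.2 = b'.2 := by
      unfold X at he
      rw [h] at he
      linarith
    exact Prod.ext h h2
  rcases lt_or_gt_of_ne hfst with h | h
  · exact key b b' hb hb' he hlt h
  · exact key b' b hb' hb he.symm (by rw [← he]; exact hlt) h

/-- The pair parallel to `(1, g)` is unique. -/
lemma uniq {P K : Finset (ℝ × ℝ)} (gp : GP P) (hK : K ⊆ P) {m g : ℝ} (hm : g < m)
    (h1 : Opn P K (1, m)) (l1 : ∀ p ∈ P, ∀ q ∈ P, X g p < X g q → X m p < X m q)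
    {b b' d d' : ℝ × ℝ} (hb : b ∈ K) (hb' : b' ∈ K) (hd : d ∈ K) (hd' : d' ∈ K) (hne : b ≠ b')
    (he : X g b = X g b') (hne' : d ≠ d') (he' : X g d = X g d') : d = b ∨ d = b' := by
  by_contra hcon
  push Not at hcon
  obtain ⟨k1, k2⟩ := hcon
  have h2 := last gp hK hm h1 l1 hb hb' hd hne he k1 k2
  -- `b` is different from `d`, `d'`
  have k3 : b ≠ d' := by
    rintro rfl
    rw [he'] at h2
    exact lt_irrefl _ h2
  have h3 := last gp hK hm h1 l1 hd hd' hb hne' he' k1.symm k3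
  linarith

/-- Points with the same first coordinate. -/
lemma vert {P K : Finset (ℝ × ℝ)} (gp : GP P) (hK : K ⊆ P) {t : ℝ} (h : ∀ a ∈ K, a.1 = t) :
    K.card ≤ 2 := by
  by_contra hcon
  obtain ⟨a, ha, b, hb, c, hc, hab, hac, hbc⟩ := Finset.two_lt_card.1 (not_le.1 hcon)
  apply gp a (hK ha) b (hK hb) c (hK hc) hab hac hbc
  unfold br
  simp only [Prod.fst_sub, Prod.snd_sub]
  rw [h a ha, h b hb, h c hc]
  ring

/-- Only finitely many slopes are not generic. -/
lemma fin_crit (P : Finset (ℝ × ℝ)) :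
    {m : ℝ | ¬ ∀ p ∈ P, ∀ q ∈ P, p ≠ q → X m p ≠ X m q}.Finite := by
  have h : {m : ℝ | ¬ ∀ p ∈ P, ∀ q ∈ P, p ≠ q → X m p ≠ X m q} ⊆
      ⋃ p ∈ (P : Set (ℝ × ℝ)), ⋃ q ∈ (P : Set (ℝ × ℝ)), {m : ℝ | p ≠ q ∧ X m p = X m q} := by
    intro m hm
    have hm' : ¬ ∀ p ∈ P, ∀ q ∈ P, p ≠ q → X m p ≠ X m q := hm
    push Not at hm'
    obtain ⟨p, hp, q, hq, hne, he⟩ := hm'
    simp only [Set.mem_iUnion]
    exact ⟨p, hp, q, hq, hne, he⟩
  refine Set.Finite.subset (P.finite_toSet.biUnion fun p _ => P.finite_toSet.biUnion fun q _ => ?_) h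
  refine Set.Subsingleton.finite ?_
  rintro m ⟨hne, h1⟩ m' ⟨-, h2⟩
  by_contra hmm
  apply hne
  have h3 : (m - m') * (p.1 - q.1) = 0 := by
    unfold X at h1 h2
    linarith
  have h4 : p.1 = q.1 := by
    rcases mul_eq_zero.1 h3 with h | h
    · exact absurd (by linarith) hmm
    · linarith
  have h5 : p.2 = q.2 := by
    unfold X at h1
    rw [h4] at h1
    linarith
  exact Prod.ext h4 h5

/-- The count. -/
lemma count {P K K' K'' : Finset (ℝ × ℝ)} {k : ℕ} (hK : K ⊆ P) (hK' : K' ⊆ P) (hK'' : K'' ⊆ P)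
    (c1 : K.card = k) (c2 : K'.card = k) (c3 : K''.card = k) (h1 : (K ∩ K'').card ≤ 2)
    (h2 : (K ∩ K').card + ((K' ∩ K'') \ K).card ≤ 4) : 3 * k ≤ P.card + 6 := by
  have e1 : (K ∪ K' ∪ K'').card ≤ P.card :=
    Finset.card_le_card (Finset.union_subset (Finset.union_subset hK hK') hK'')
  have e2 : (K ∪ K' ∪ K'').card = (K ∪ K').card + (K'' \ (K ∪ K')).card := by
    rw [← Finset.card_union_of_disjoint Finset.disjoint_sdiff, Finset.union_sdiff_self_eq_union]
  have e3 : (K ∪ K').card = K.card + (K' \ K).card := by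
    rw [← Finset.card_union_of_disjoint Finset.disjoint_sdiff, Finset.union_sdiff_self_eq_union]
  have e4 : (K' \ K).card + (K' ∩ K).card = K'.card := Finset.card_sdiff_add_card_inter K' K
  have e5 : (K'' \ (K ∪ K')).card + (K'' ∩ (K ∪ K')).card = K''.card :=
    Finset.card_sdiff_add_card_inter K'' (K ∪ K')
  have e6 : (K'' ∩ (K ∪ K')).card ≤ (K ∩ K'').card + ((K' ∩ K'') \ K).card := by
    refine le_trans (Finset.card_le_card ?_) (Finset.card_union_le _ _)
    intro x hx
    rw [Finset.mem_inter, Finset.mem_union] at hx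
    rw [Finset.mem_union, Finset.mem_inter, Finset.mem_sdiff, Finset.mem_inter]
    by_cases hxK : x ∈ K
    · exact Or.inl ⟨hxK, hx.1⟩
    · exact Or.inr ⟨⟨hx.2.resolve_left hxK, hx.1⟩, hxK⟩
  rw [Finset.inter_comm K' K] at e4
  omega

/-- **Directions without open cups.** -/
theorem exists_dir (P : Finset (ℝ × ℝ)) (gp : GP P) (k : ℕ) (hn : P.card + 7 ≤ 3 * k) :
    ∃ u : ℝ × ℝ, u ≠ 0 ∧ Gen P u ∧
      ∀ K ⊆ P, K.card = k → ∃ a ∈ K, ∃ c ∈ K, ∃ p ∈ P, Ab u a p c := by
  by_contra hcon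
  have H : ∀ u : ℝ × ℝ, u.1 ≠ 0 → Gen P u → ∃ K ⊆ P, K.card = k ∧ Opn P K u := by
    intro u hu0 hu
    by_contra h
    apply hcon
    refine ⟨u, fun h0 => hu0 (by rw [h0]; rfl), hu, fun K hK hc => ?_⟩
    by_contra h'
    push Not at h'
    exact h ⟨K, hK, hc, h'⟩
  have hk : 3 ≤ k := by omega
  have hne : P.Nonempty := by
    rcases P.eq_empty_or_nonempty with h | h
    · exfalso
      obtain ⟨K, hK, hc, -⟩ := H (1, 0) one_ne_zero (by
        intro p hp
        rw [h] at hp
        simp at hp)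
      rw [h] at hK
      rw [Finset.subset_empty.1 hK, Finset.card_empty] at hc
      omega
    · exact h
  obtain ⟨A, hA, hmax⟩ := P.exists_max_image (fun p => p.1) hne
  let G : ℝ → Prop := fun m => ∀ p ∈ P, ∀ q ∈ P, p ≠ q → X m p ≠ X m q
  let R : ℝ → Prop := fun m => G m ∧ ∃ K ⊆ P, K.card = k ∧ Opn P K (1, m) ∧ ∀ a ∈ K, X m A ≤ X m a
  let L : ℝ → Prop := fun m => ∃ K ⊆ P, K.card = k ∧ Opn P K (1, m) ∧ ∀ a ∈ K, X m a ≤ X m A
  have hRL : ∀ m, G m → R m ∨ L m := by
    intro m hm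
    obtain ⟨K, hK, hc, ho⟩ := H (1, m) one_ne_zero (gen_pos hm)
    rcases side gp hK ho hA hmax with h | h
    · exact Or.inr ⟨K, hK, hc, ho, h⟩
    · exact Or.inl ⟨hm, K, hK, hc, ho, h⟩
  -- large slopes
  have htop : ∀ᶠ m : ℝ in Filter.atTop, ∀ p ∈ P, p.1 < A.1 → X m p < X m A := by
    rw [Filter.eventually_all_finset]
    intro p hp
    by_cases h : p.1 < A.1
    · filter_upwards [Filter.eventually_gt_atTop ((A.2 - p.2) / (A.1 - p.1))] with m hm _
      rw [div_lt_iff₀ (by linarith)] at hm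
      unfold X
      linarith
    · exact Filter.Eventually.of_forall fun m h' => absurd h' h
  have hbot : ∀ᶠ m : ℝ in Filter.atBot, ∀ p ∈ P, p.1 < A.1 → X m A < X m p := by
    rw [Filter.eventually_all_finset]
    intro p hp
    by_cases h : p.1 < A.1
    · filter_upwards [Filter.eventually_lt_atBot ((A.2 - p.2) / (A.1 - p.1))] with m hm _
      rw [lt_div_iff₀ (by linarith)] at hm
      unfold X
      linarith
    · exact Filter.Eventually.of_forall fun m h' => absurd h' h
  obtain ⟨M, hM⟩ := Filter.eventually_atTop.1 htop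
  obtain ⟨M', hM'⟩ := Filter.eventually_atBot.1 hbot
  have hRM : ∀ m, R m → m ≤ M := by
    rintro m ⟨-, K, hK, hc, -, hr⟩
    by_contra h
    have h1 := vert gp hK (t := A.1) fun a ha => by
      by_contra h2
      have h3 := hM m (le_of_lt (not_le.1 h)) a (hK ha) (lt_of_le_of_ne (hmax a (hK ha)) h2)
      exact absurd (hr a ha) (not_le.2 h3)
    omega
  obtain ⟨m₀, hm₀, hg₀⟩ := ((Set.Iio_infinite M').sdiff (fin_crit P)).nonempty
  have hg₀ : G m₀ := by
    exact not_not.1 hg₀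
  have hR₀ : R m₀ := by
    refine (hRL m₀ hg₀).resolve_right ?_
    rintro ⟨K, hK, hc, -, hl⟩
    have h1 := vert gp hK (t := A.1) fun a ha => by
      by_contra h2
      have h3 := hM' m₀ (le_of_lt hm₀) a (hK ha) (lt_of_le_of_ne (hmax a (hK ha)) h2)
      exact absurd (hl a ha) (not_le.2 h3)
    omega
  have hbdd : BddAbove {m | R m} := ⟨M, fun m hm => hRM m hm⟩
  set g : ℝ := sSup {m | R m} with hg
  -- near `g`
  have hnear : ∀ᶠ m : ℝ in nhds g, ∀ p ∈ P, ∀ q ∈ P, X g p < X g q → X m p < X m q := by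
    rw [Filter.eventually_all_finset]
    intro p hp
    rw [Filter.eventually_all_finset]
    intro q hq
    by_cases h : X g p < X g q
    · have c1 : ∀ p : ℝ × ℝ, Continuous fun m : ℝ => X m p := by
        intro p
        unfold X
        fun_prop
      filter_upwards [(c1 p).continuousAt.eventually_lt (c1 q).continuousAt h] with m hm _
      exact hm
    · exact Filter.Eventually.of_forall fun m h' => absurd h' h
  obtain ⟨δ, hδ, hnear⟩ := Metric.eventually_nhds_iff.1 hnear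
  obtain ⟨m₁, hR₁, hlt⟩ := exists_lt_of_lt_csSup (s := {m | R m}) ⟨m₀, hR₀⟩
    (show g - δ < sSup {m | R m} by rw [← hg]; linarith)
  have hle : m₁ ≤ g := le_csSup hbdd hR₁
  have l₁ := hnear (y := m₁) (by rw [Real.dist_eq, abs_lt]; constructor <;> linarith)
  have l₂ := hnear (y := g + δ / 2) (by rw [Real.dist_eq, abs_lt]; constructor <;> linarith)
  set m₂ : ℝ := g + δ / 2 with hm₂
  have hgm : g < m₂ := by rw [hm₂]; linarith
  have hG₂ : G m₂ := by
    intro p hp q hq hne h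
    rcases lt_trichotomy (X g p) (X g q) with h1 | h1 | h1
    · exact absurd h (ne_of_lt (l₂ p hp q hq h1))
    · have h2 : (m₂ - g) * (p.1 - q.1) = 0 := by
        rw [X_add m₂ g p, X_add m₂ g q] at h
        linarith
      have h4 : p.1 = q.1 := by
        rcases mul_eq_zero.1 h2 with h | h
        · exact absurd h (by linarith)
        · linarith
      have h5 : p.2 = q.2 := by
        unfold X at h1
        rw [h4] at h1
        linarith
      exact hne (Prod.ext h4 h5)
    · exact absurd h (ne_of_gt (l₂ q hq p hp h1))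
  have hR₂ : ¬ R m₂ := fun h => absurd (le_csSup hbdd h) (not_le.2 hgm)
  obtain ⟨K', hK', c2, o2, left⟩ := (hRL m₂ hG₂).resolve_left hR₂
  obtain ⟨hG₁, K, hK, c1, o1, right⟩ := hR₁
  obtain ⟨K'', hK'', c3, o3⟩ := H (-1, -m₁) (by norm_num) (gen_neg hG₁)
  -- the common points of the first two cups
  have hB : ∀ a ∈ K ∩ K', X g a = X g A := by
    intro a ha
    rw [Finset.mem_inter] at ha
    rcases lt_trichotomy (X g a) (X g A) with h | h | h
    · exact absurd (right a ha.1) (not_le.2 (l₁ a (hK ha.1) A hA h))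
    · exact h
    · exact absurd (left a ha.2) (not_le.2 (l₂ A hA a (hK ha.1) h))
  have hB2 : (K ∩ K').card ≤ 2 := by
    by_contra hcon
    obtain ⟨a, ha, b, hb, c, hc, hab, hac, hbc⟩ := Finset.two_lt_card.1 (not_le.1 hcon)
    exact fiber gp g (hK (Finset.mem_inter.1 ha).1) (hK (Finset.mem_inter.1 hb).1)
      (hK (Finset.mem_inter.1 hc).1) hab hac hbc (by rw [hB a ha, hB b hb]) (by rw [hB a ha, hB c hc])
  have hD : (K ∩ K'').card ≤ 2 :=
    small gp hK (g := m₁) o1 o3 (fun _ _ _ _ h => h) (fun _ _ _ _ h => h) Finset.inter_subset_left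
      Finset.inter_subset_right fun p hp q hq hne =>
        hG₁ p (hK (Finset.mem_inter.1 hp).1) q (hK (Finset.mem_inter.1 hq).1) hne
  have hW : ∀ W : Finset (ℝ × ℝ), W ⊆ K' ∩ K'' → (∀ p ∈ W, ∀ q ∈ W, p ≠ q → X g p ≠ X g q) →
      W.card ≤ 2 := by
    intro W hW inj
    exact small gp hK' o2 o3 l₂ l₁ (hW.trans Finset.inter_subset_left)
      (hW.trans Finset.inter_subset_right) inj
  have hfin : (K ∩ K').card + ((K' ∩ K'') \ K).card ≤ 4 := by
    by_cases hc : (K ∩ K').card ≤ 1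
    · have h3 : (K' ∩ K'').card ≤ 3 := by
        by_cases inj : ∀ p ∈ K' ∩ K'', ∀ q ∈ K' ∩ K'', p ≠ q → X g p ≠ X g q
        · exact (hW _ (Finset.Subset.refl _) inj).trans (by norm_num)
        · push Not at inj
          obtain ⟨b, hb, b', hb', hne, he⟩ := inj
          have h4 : ((K' ∩ K'').erase b).card ≤ 2 := by
            refine hW _ (Finset.erase_subset _ _) ?_
            intro d hd d' hd' hne' he'
            rw [Finset.mem_erase] at hd hd'
            have u1 := uniq gp hK' hgm o2 l₂ (Finset.mem_inter.1 hb).1 (Finset.mem_inter.1 hb').1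
              (Finset.mem_inter.1 hd.2).1 (Finset.mem_inter.1 hd'.2).1 hne he hne' he'
            have u2 := uniq gp hK' hgm o2 l₂ (Finset.mem_inter.1 hb).1 (Finset.mem_inter.1 hb').1
              (Finset.mem_inter.1 hd'.2).1 (Finset.mem_inter.1 hd.2).1 hne he hne'.symm he'.symm
            have u3 := u1.resolve_left hd.1
            have u4 := u2.resolve_left hd'.1
            exact hne' (by rw [u3, u4])
          rw [Finset.card_erase_of_mem hb] at h4
          omega
      have h5 : ((K' ∩ K'') \ K).card ≤ (K' ∩ K'').card := Finset.card_le_card Finset.sdiff_subset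
      omega
    · obtain ⟨q, hq, q', hq', hne⟩ := Finset.one_lt_card.1 (not_le.1 hc)
      have h4 : ((K' ∩ K'') \ K).card ≤ 2 := by
        refine hW _ Finset.sdiff_subset ?_
        intro d hd d' hd' hne' he'
        rw [Finset.mem_sdiff] at hd hd'
        have u1 := uniq gp hK' hgm o2 l₂ (Finset.mem_inter.1 hq).2 (Finset.mem_inter.1 hq').2
          (Finset.mem_inter.1 hd.1).1 (Finset.mem_inter.1 hd'.1).1 hne
          (by rw [hB q hq, hB q' hq']) hne' he'
        rcases u1 with h | h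
        · exact hd.2 (by rw [h]; exact (Finset.mem_inter.1 hq).1)
        · exact hd.2 (by rw [h]; exact (Finset.mem_inter.1 hq').1)
      omega
  have := count hK hK' hK'' c1 c2 c3 hD hfin
  omega

end Pool.Agent.H2.HM
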