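import Pool.Agent.H2.HM.Dir

/-!
Adding a far point in a direction without open cups.
-/

set_option autoImplicit false
open scoped Classical

namespace Pool.Agent.H2.HM

/-- `Y` is a `k`-hole of `P`. -/
def Hole (k : ℕ) (P Y : Finset (ℝ × ℝ)) : Prop :=
  Y ⊆ P ∧ Y.card = k ∧ (∀ x ∈ Y, x ∉ convexHull ℝ ((Y : Set (ℝ × ℝ)) \ {x})) ∧
    ∀ p ∈ P, p ∉ interior (convexHull ℝ (Y : Set (ℝ × ℝ)))

lemma col_iff {a b c : ℝ × ℝ} (hab : a ≠ b) : Collinear ℝ {a, b, c} ↔ br (b - a) (c - a) = 0 := by
  rw [collinear_iff_of_mem (p₀ := a) (by simp)]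
  constructor
  · rintro ⟨v, hv⟩
    obtain ⟨r, hr⟩ := hv b (by simp)
    obtain ⟨s, hs⟩ := hv c (by simp)
    rw [hr, hs]
    unfold br
    simp only [vadd_eq_add, add_sub_cancel_right, Prod.smul_fst, Prod.smul_snd, smul_eq_mul]
    ring
  · intro h
    unfold br at h
    simp only [Prod.fst_sub, Prod.snd_sub] at h
    by_cases h1 : b.1 - a.1 = 0
    · have h2 : b.2 - a.2 ≠ 0 := by
        intro h2
        exact hab (Prod.ext (by linarith) (by linarith))
      have h3 : c.1 - a.1 = 0 := by
        rw [h1, zero_mul, zero_sub, neg_eq_zero] at h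
        exact (mul_eq_zero.1 h).resolve_left h2
      refine ⟨b - a, ?_⟩
      intro p hp
      rcases hp with rfl | rfl | rfl
      · exact ⟨0, by simp⟩
      · exact ⟨1, by simp⟩
      · refine ⟨(p.2 - a.2) / (b.2 - a.2), Prod.ext ?_ ?_⟩
        · simp only [vadd_eq_add, Prod.fst_add, Prod.smul_fst, Prod.fst_sub, smul_eq_mul, h1]
          linarith
        · simp only [vadd_eq_add, Prod.snd_add, Prod.smul_snd, Prod.snd_sub, smul_eq_mul]
          field_simp
          ring
    · refine ⟨b - a, ?_⟩
      intro p hp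
      rcases hp with rfl | rfl | rfl
      · exact ⟨0, by simp⟩
      · exact ⟨1, by simp⟩
      · refine ⟨(p.1 - a.1) / (b.1 - a.1), Prod.ext ?_ ?_⟩
        · simp only [vadd_eq_add, Prod.fst_add, Prod.smul_fst, Prod.fst_sub, smul_eq_mul]
          field_simp
          ring
        · simp only [vadd_eq_add, Prod.snd_add, Prod.smul_snd, Prod.snd_sub, smul_eq_mul]
          field_simp
          linarith

/-- Open triangles. -/
lemma tri {a c x p : ℝ × ℝ} (h1 : 0 < br (c - p) (x - p)) (h2 : 0 < br (x - p) (a - p))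
    (h3 : 0 < br (a - p) (c - p)) : p ∈ interior (convexHull ℝ ({a, c, x} : Set (ℝ × ℝ))) := by
  rw [mem_interior]
  refine ⟨{z | 0 < br (c - z) (x - z) ∧ 0 < br (x - z) (a - z) ∧ 0 < br (a - z) (c - z)}, ?_, ?_,
    h1, h2, h3⟩
  · rintro z ⟨k1, k2, k3⟩
    have hs : 0 < br (c - z) (x - z) + br (x - z) (a - z) + br (a - z) (c - z) := by linarith
    set w : Fin 3 → ℝ := ![br (c - z) (x - z) / (br (c - z) (x - z) + br (x - z) (a - z) +
        br (a - z) (c - z)), br (x - z) (a - z) / (br (c - z) (x - z) + br (x - z) (a - z) +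
        br (a - z) (c - z)), br (a - z) (c - z) / (br (c - z) (x - z) + br (x - z) (a - z) +
        br (a - z) (c - z))] with hw
    have hz : z = ∑ i : Fin 3, w i • (![a, c, x] : Fin 3 → ℝ × ℝ) i := by
      rw [Fin.sum_univ_three, hw]
      simp only [Matrix.cons_val_zero, Matrix.cons_val_one, Matrix.cons_val]
      refine Prod.ext ?_ ?_
      · simp only [Prod.fst_add, Prod.smul_fst, smul_eq_mul]
        field_simp
        unfold br
        simp only [Prod.fst_sub, Prod.snd_sub]
        ring
      · simp only [Prod.snd_add, Prod.smul_snd, smul_eq_mul]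
        field_simp
        unfold br
        simp only [Prod.fst_sub, Prod.snd_sub]
        ring
    rw [hz]
    refine (convex_convexHull ℝ _).sum_mem ?_ ?_ ?_
    · intro i _
      fin_cases i
      · exact (div_pos k1 hs).le
      · exact (div_pos k2 hs).le
      · exact (div_pos k3 hs).le
    · rw [Fin.sum_univ_three, hw]
      simp only [Matrix.cons_val_zero, Matrix.cons_val_one, Matrix.cons_val]
      field_simp
    · intro i _
      apply subset_convexHull
      fin_cases i <;> simp
  · have c1 : Continuous fun z : ℝ × ℝ => br (c - z) (x - z) := by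
      unfold br
      fun_prop
    have c2 : Continuous fun z : ℝ × ℝ => br (x - z) (a - z) := by
      unfold br
      fun_prop
    have c3 : Continuous fun z : ℝ × ℝ => br (a - z) (c - z) := by
      unfold br
      fun_prop
    exact (isOpen_lt continuous_const c1).inter
      ((isOpen_lt continuous_const c2).inter (isOpen_lt continuous_const c3))

/-- A linear function with positive slope is eventually positive. -/
lemma ev_pos {s r : ℝ} (hs : 0 < s) : ∀ᶠ t : ℝ in Filter.atTop, 0 < t * s + r := by
  filter_upwards [Filter.eventually_gt_atTop (-r / s)] with t ht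
  rw [div_lt_iff₀ hs] at ht
  linarith

lemma ev_ne {s r : ℝ} (hs : s ≠ 0) : ∀ᶠ t : ℝ in Filter.atTop, t * s + r ≠ 0 := by
  rcases lt_or_gt_of_ne hs with h | h
  · filter_upwards [ev_pos (s := -s) (r := -r) (by linarith)] with t ht h0
    linarith
  · filter_upwards [ev_pos (s := s) (r := r) h] with t ht h0
    linarith

/-- Points above a segment are in the triangle with a far point. -/
lemma ev_tri {u a p c : ℝ × ℝ} (h : Ab u a p c) :
    ∀ᶠ t : ℝ in Filter.atTop, p ∈ interior (convexHull ℝ ({a, c, t • u} : Set (ℝ × ℝ))) := by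
  obtain ⟨h1, h2, h3⟩ := h
  filter_upwards [ev_pos (s := br c u - br p u) (r := - br (c - p) p) (by linarith),
    ev_pos (s := br p u - br a u) (r := - br p (a - p)) (by linarith)] with t k1 k2
  refine tri ?_ ?_ ?_
  · have e : br (c - p) (t • u - p) = t * (br c u - br p u) + - br (c - p) p := by
      unfold br
      simp only [Prod.fst_sub, Prod.snd_sub, Prod.smul_fst, Prod.smul_snd, smul_eq_mul]
      ring
    rw [e]
    exact k1
  · have e : br (t • u - p) (a - p) = t * (br p u - br a u) + - br p (a - p) := by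
      unfold br
      simp only [Prod.fst_sub, Prod.snd_sub, Prod.smul_fst, Prod.smul_snd, smul_eq_mul]
      ring
    rw [e]
    exact k2
  · have e : br (a - p) (c - p) = br (c - a) (p - a) := by
      unfold br
      simp only [Prod.fst_sub, Prod.snd_sub]
      ring
    rw [e]
    exact h3

/-- **Adding a far point.** -/
theorem add_far {k : ℕ} {P : Finset (ℝ × ℝ)} (gp : GP P) {u : ℝ × ℝ} (hu0 : u ≠ 0) (hu : Gen P u)
    (hop : ∀ K ⊆ P, K.card = k → ∃ a ∈ K, ∃ c ∈ K, ∃ p ∈ P, Ab u a p c)
    (hno : ∀ Y, ¬ Hole (k + 1) P Y) :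
    ∃ x, x ∉ P ∧ GP (insert x P) ∧ (∀ Y, Hole k P Y → Hole k (insert x P) Y) ∧
      ∀ Y, ¬ Hole (k + 1) (insert x P) Y := by
  have e1 : ∀ᶠ t : ℝ in Filter.atTop, ∀ a ∈ P, ∀ p ∈ P, ∀ c ∈ P, Ab u a p c →
      p ∈ interior (convexHull ℝ ({a, c, t • u} : Set (ℝ × ℝ))) := by
    rw [Filter.eventually_all_finset]
    intro a _
    rw [Filter.eventually_all_finset]
    intro p _
    rw [Filter.eventually_all_finset]
    intro c _
    by_cases h : Ab u a p c
    · filter_upwards [ev_tri h] with t ht _
      exact ht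
    · exact Filter.Eventually.of_forall fun t h' => absurd h' h
  have hpos : 0 < u.1 * u.1 + u.2 * u.2 := by
    by_contra hcon
    have h1 : u.1 = 0 := by nlinarith [mul_self_nonneg u.1, mul_self_nonneg u.2]
    have h2 : u.2 = 0 := by nlinarith [mul_self_nonneg u.1, mul_self_nonneg u.2]
    exact hu0 (Prod.ext h1 h2)
  have e2 : ∀ᶠ t : ℝ in Filter.atTop, ∀ p ∈ P,
      0 < t * (u.1 * u.1 + u.2 * u.2) + -(p.1 * u.1 + p.2 * u.2) := by
    rw [Filter.eventually_all_finset]
    intro p _
    exact ev_pos hpos
  have e3 : ∀ᶠ t : ℝ in Filter.atTop, ∀ p ∈ P, ∀ q ∈ P, p ≠ q →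
      t * br (q - p) u + - br (q - p) p ≠ 0 := by
    rw [Filter.eventually_all_finset]
    intro p hp
    rw [Filter.eventually_all_finset]
    intro q hq
    by_cases h : p ≠ q
    · filter_upwards [ev_ne (r := - br (q - p) p) (hu q hq p hp (Ne.symm h))] with t ht _
      exact ht
    · exact Filter.Eventually.of_forall fun t h' => absurd h' h
  obtain ⟨t, k1, k2, k3⟩ := (e1.and (e2.and e3)).exists
  set x : ℝ × ℝ := t • u with hx
  have hxP : x ∉ P := by
    intro h
    have h1 := k2 x h
    have h2 : x.1 * u.1 + x.2 * u.2 = t * (u.1 * u.1 + u.2 * u.2) := by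
      rw [hx]
      simp only [Prod.smul_fst, Prod.smul_snd, smul_eq_mul]
      ring
    rw [h2] at h1
    linarith
  have hline : ∀ p ∈ P, ∀ q ∈ P, p ≠ q → br (q - p) (x - p) ≠ 0 := by
    intro p hp q hq hne
    have e : br (q - p) (x - p) = t * br (q - p) u + - br (q - p) p := by
      rw [hx]
      unfold br
      simp only [Prod.fst_sub, Prod.snd_sub, Prod.smul_fst, Prod.smul_snd, smul_eq_mul]
      ring
    rw [e]
    exact k3 p hp q hq hne
  have hout : x ∉ convexHull ℝ (P : Set (ℝ × ℝ)) := by
    intro h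
    have hc : Convex ℝ {z : ℝ × ℝ | z.1 * u.1 + z.2 * u.2 < t * (u.1 * u.1 + u.2 * u.2)} := by
      intro z hz y hy α β hα hβ hαβ
      simp only [Set.mem_ofPred_eq, Prod.fst_add, Prod.snd_add, Prod.smul_fst, Prod.smul_snd,
        smul_eq_mul] at hz hy ⊢
      have hβ' : β = 1 - α := by linarith
      subst hβ'
      rcases eq_or_lt_of_le hα with h0 | h0
      · rw [← h0]
        linarith
      · have i1 : α * (z.1 * u.1 + z.2 * u.2) < α * (t * (u.1 * u.1 + u.2 * u.2)) :=
          mul_lt_mul_of_pos_left hz h0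
        have i2 : (1 - α) * (y.1 * u.1 + y.2 * u.2) ≤ (1 - α) * (t * (u.1 * u.1 + u.2 * u.2)) :=
          mul_le_mul_of_nonneg_left hy.le hβ
        nlinarith
    have h1 : convexHull ℝ (P : Set (ℝ × ℝ)) ⊆
        {z : ℝ × ℝ | z.1 * u.1 + z.2 * u.2 < t * (u.1 * u.1 + u.2 * u.2)} := by
      refine convexHull_min (fun p hp => ?_) hc
      have := k2 p hp
      simp only [Set.mem_ofPred_eq]
      linarith
    have h2 := h1 h
    simp only [Set.mem_ofPred_eq] at h2
    rw [hx] at h2
    simp only [Prod.smul_fst, Prod.smul_snd, smul_eq_mul] at h2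
    linarith
  refine ⟨x, hxP, ?_, ?_, ?_⟩
  · -- general position
    intro a ha b hb c hc hab hac hbc h
    rw [Finset.mem_insert] at ha hb hc
    rcases ha with rfl | ha
    · have hb' := hb.resolve_left hab.symm
      have hc' := hc.resolve_left hac.symm
      apply hline b hb' c hc' hbc
      have e : br (c - b) (x - b) = br (b - x) (c - x) := by
        unfold br
        simp only [Prod.fst_sub, Prod.snd_sub]
        ring
      rw [e]
      exact h
    · rcases hb with rfl | hb
      · have hc' := hc.resolve_left hbc.symm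
        apply hline a ha c hc' hac
        have e : br (c - a) (x - a) = - br (x - a) (c - a) := by
          unfold br
          ring
        rw [e, h, neg_zero]
      · rcases hc with rfl | hc
        · exact hline a ha b hb hab h
        · exact gp a ha b hb c hc hab hac hbc h
  · -- old holes
    rintro Y ⟨g1, g2, g3, g4⟩
    refine ⟨g1.trans (Finset.subset_insert _ _), g2, g3, fun p hp => ?_⟩
    rw [Finset.mem_insert] at hp
    rcases hp with rfl | hp
    · intro h
      exact hout (convexHull_mono (Finset.coe_subset.2 g1) (interior_subset h))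
    · exact g4 p hp
  · -- new holes
    rintro Y ⟨g1, g2, g3, g4⟩
    by_cases hxY : x ∈ Y
    · have hK : Y.erase x ⊆ P := by
        intro p hp
        rw [Finset.mem_erase] at hp
        exact (Finset.mem_insert.1 (g1 hp.2)).resolve_left hp.1
      obtain ⟨a, ha, c, hc, p, hp, hab⟩ := hop (Y.erase x) hK (by
        rw [Finset.card_erase_of_mem hxY, g2]
        rfl)
      have hin := k1 a (hK ha) p hp c (hK hc) hab
      have hpa : p ≠ a := by
        rintro rfl
        exact lt_irrefl _ hab.1
      have hpc : p ≠ c := by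
        rintro rfl
        exact lt_irrefl _ hab.2.1
      have hpx : p ≠ x := by
        rintro rfl
        exact hxP hp
      by_cases hpY : p ∈ Y
      · apply g3 p hpY
        refine convexHull_mono ?_ (interior_subset hin)
        intro z hz
        rcases hz with rfl | rfl | rfl
        · exact ⟨(Finset.mem_erase.1 ha).2, fun h => hpa h.symm⟩
        · exact ⟨(Finset.mem_erase.1 hc).2, fun h => hpc h.symm⟩
        · exact ⟨hxY, fun h => hpx h.symm⟩
      · apply g4 p (Finset.mem_insert_of_mem hp)
        refine interior_mono (convexHull_mono ?_) hin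
        intro z hz
        rcases hz with rfl | rfl | rfl
        · exact (Finset.mem_erase.1 ha).2
        · exact (Finset.mem_erase.1 hc).2
        · exact hxY
    · refine hno Y ⟨?_, g2, g3, fun p hp => g4 p (Finset.mem_insert_of_mem hp)⟩
      intro p hp
      refine (Finset.mem_insert.1 (g1 hp)).resolve_left ?_
      rintro rfl
      exact hxY hp

end Pool.Agent.H2.HM
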